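import Mathlib

set_option autoImplicit false

/-!
The Welch-type game `G*_ω` and the Ulam game of length `ω` (problem `MP_0eb1a9_lc`): definitions.
The cardinal `κ` is represented by the set `Set.Iio κ.ord` of the ordinals smaller than `κ`.
-/

namespace Pool.Agent.X177.WG

open Cardinal Ordinal

universe u

/-- `𝒜` is a `κ`-complete subalgebra of the power set of `κ`. -/
structure IsAlg (κ : Cardinal.{u}) (𝒜 : Set (Set Ordinal.{u})) : Prop where
  sub : ∀ A ∈ 𝒜, A ⊆ Set.Iio κ.ord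
  univ : Set.Iio κ.ord ∈ 𝒜
  compl : ∀ A ∈ 𝒜, Set.Iio κ.ord \ A ∈ 𝒜
  inter : ∀ S ⊆ 𝒜, S.Nonempty → #S < Cardinal.lift.{u + 1} κ → ⋂₀ S ∈ 𝒜

/-- `U` is a uniform `κ`-complete ultrafilter on the algebra `𝒜` of subsets of `κ`. -/
structure IsUlt (κ : Cardinal.{u}) (𝒜 U : Set (Set Ordinal.{u})) : Prop where
  sub : U ⊆ 𝒜
  univ : Set.Iio κ.ord ∈ U
  uniform : ∀ A ∈ U, #A = Cardinal.lift.{u + 1} κ
  up : ∀ A ∈ U, ∀ B ∈ 𝒜, A ⊆ B → B ∈ U
  ultra : ∀ A ∈ 𝒜, A ∈ U ∨ Set.Iio κ.ord \ A ∈ U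
  inter : ∀ S ⊆ U, S.Nonempty → #S < Cardinal.lift.{u + 1} κ → ⋂₀ S ∈ U

/-- The `κ`-complete subalgebra of the power set of `κ` generated by `𝒮`. -/
def gen (κ : Cardinal.{u}) (𝒮 : Set (Set Ordinal.{u})) : Set (Set Ordinal.{u}) :=
  {A | ∀ 𝒜, IsAlg κ 𝒜 → 𝒮 ⊆ 𝒜 → A ∈ 𝒜}

/-- `κ` is a measurable cardinal. -/
def IsMeasurable (κ : Cardinal.{u}) : Prop :=
  ℵ₀ < κ ∧ ∃ U, IsUlt κ {A | A ⊆ Set.Iio κ.ord} U

/-- `κ` is a weakly compact cardinal: it is inaccessible and every `κ`-complete subalgebra of its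
power set of size `κ` has a uniform `κ`-complete ultrafilter. -/
def IsWeaklyCompact (κ : Cardinal.{u}) : Prop :=
  κ.IsInaccessible ∧ ∀ 𝒜, IsAlg κ 𝒜 → #𝒜 = Cardinal.lift.{u + 1} κ → ∃ U, IsUlt κ 𝒜 U

/-- The first `n + 1` moves of a player. -/
def hist {α : Type*} (a : ℕ → α) (n : ℕ) : List α := (List.range (n + 1)).map a

/-- Player II has a winning strategy in the game `G*_ω` on `κ`. A strategy assigns to the finite
sequences `(𝒜_0, ..., 𝒜_n)` of moves of Player I the answer `U_n`. -/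
def WinsGStar (κ : Cardinal.{u}) : Prop :=
  ∃ σ : List (Set (Set Ordinal.{u})) → Set (Set Ordinal.{u}),
    ∀ 𝒜 : ℕ → Set (Set Ordinal.{u}),
      (∀ n, IsAlg κ (𝒜 n) ∧ #(𝒜 n) = Cardinal.lift.{u + 1} κ ∧ 𝒜 n ⊆ 𝒜 (n + 1)) →
      (∀ β < κ.ord, {β} ∈ 𝒜 0) →
      (∀ n, IsUlt κ (𝒜 n) (σ (hist 𝒜 n)) ∧ σ (hist 𝒜 n) ⊆ σ (hist 𝒜 (n + 1))) ∧
      ∃ W, IsUlt κ (gen κ (⋃ n, 𝒜 n)) W ∧ ∀ n, σ (hist 𝒜 n) ⊆ W

/-- The answer to the partition `P` of Player I. -/
def pick (P : Set Ordinal.{u} × Set Ordinal.{u}) (b : Bool) : Set Ordinal.{u} :=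
  if b then P.1 else P.2

/-- Player II has a winning strategy in the Ulam game of length `ω` on `κ`. A strategy assigns to
the finite sequences of partitions played by Player I the number of the piece chosen by Player II.
-/
def WinsUlam (κ : Cardinal.{u}) : Prop :=
  ∃ τ : List (Set Ordinal.{u} × Set Ordinal.{u}) → Bool,
    ∀ P : ℕ → Set Ordinal.{u} × Set Ordinal.{u},
      (∀ n, (P n).1 ∩ (P n).2 = ∅ ∧ (P n).1 ∪ (P n).2 =
        {β | β < κ.ord ∧ ∀ m < n, β ∈ pick (P m) (τ (hist P m))}) →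
      ∃ x y, x ≠ y ∧ ∀ n, x ∈ pick (P n) (τ (hist P n)) ∧ y ∈ pick (P n) (τ (hist P n))

/-- If there is a measurable cardinal `μ ≤ κ` then Player II wins the Ulam game on `κ`. -/
theorem winsUlam {μ κ : Cardinal.{u}} (hμ : IsMeasurable μ) (hμκ : μ ≤ κ) : WinsUlam κ := by
  classical
  obtain ⟨hμ0, U, hU⟩ := hμ
  have hsub : Set.Iio μ.ord ⊆ Set.Iio κ.ord := Set.Iio_subset_Iio (ord_le_ord.2 hμκ)
  have h1μ : (1 : Cardinal.{u + 1}) < Cardinal.lift.{u + 1} μ :=
    Cardinal.one_lt_aleph0.trans (by simpa using hμ0)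
  let pc : Set Ordinal.{u} × Set Ordinal.{u} → Bool := fun P => decide (P.1 ∩ Set.Iio μ.ord ∈ U)
  refine ⟨fun l => match l.getLast? with | some P => pc P | none => true, ?_⟩
  intro P hP
  have hτ : ∀ n, (match (hist P n).getLast? with | some P => pc P | none => true) = pc (P n) := by
    intro n
    rw [hist, List.range_succ, List.map_append, List.map_singleton, List.getLast?_concat]
  simp only [hτ] at hP ⊢
  have key : ∀ n, pick (P n) (pc (P n)) ∩ Set.Iio μ.ord ∈ U := by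
    intro n
    induction n using Nat.strong_induction_on with
    | _ n ih =>
      have hC : {β | β < κ.ord ∧ ∀ m < n, β ∈ pick (P m) (pc (P m))} ∩ Set.Iio μ.ord ∈ U := by
        set S : Set (Set Ordinal.{u}) := insert (Set.Iio μ.ord)
          {A | ∃ m < n, A = pick (P m) (pc (P m)) ∩ Set.Iio μ.ord} with hS
        have hSf : S.Finite := by
          refine Set.Finite.insert _ ((Set.finite_Iio n).image
            (fun m => pick (P m) (pc (P m)) ∩ Set.Iio μ.ord) |>.subset ?_)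
          rintro A ⟨m, hm, rfl⟩
          exact ⟨m, hm, rfl⟩
        have h1 : ⋂₀ S ∈ U := by
          refine hU.inter S ?_ ⟨_, Set.mem_insert _ _⟩ ?_
          · intro A hA
            rcases hA with rfl | ⟨m, hm, rfl⟩
            · exact hU.univ
            · exact ih m hm
          · exact (Cardinal.lt_aleph0_iff_set_finite.2 hSf).trans (by simpa using hμ0)
        refine hU.up _ h1 _ (fun β h => h.2) ?_
        intro β hβ
        have h2 : β ∈ Set.Iio μ.ord := hβ _ (Set.mem_insert _ _)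
        refine ⟨⟨hsub h2, fun m hm => ?_⟩, h2⟩
        exact (hβ _ (Set.mem_insert_of_mem _ ⟨m, hm, rfl⟩)).1
      rw [← (hP n).2] at hC
      by_cases h : (P n).1 ∩ Set.Iio μ.ord ∈ U
      · have h3 : pick (P n) (pc (P n)) = (P n).1 := by simp [pick, pc, h]
        rw [h3]
        exact h
      · have h3 : pick (P n) (pc (P n)) = (P n).2 := by simp [pick, pc, h]
        rw [h3]
        have h4 : Set.Iio μ.ord \ ((P n).1 ∩ Set.Iio μ.ord) ∈ U :=
          (hU.ultra _ fun β h => h.2).resolve_left h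
        have h5 : ⋂₀ {Set.Iio μ.ord \ ((P n).1 ∩ Set.Iio μ.ord),
            ((P n).1 ∪ (P n).2) ∩ Set.Iio μ.ord} ∈ U := by
          refine hU.inter _ ?_ ⟨_, Set.mem_insert _ _⟩ ?_
          · rintro A (rfl | rfl)
            · exact h4
            · exact hC
          · exact (Cardinal.lt_aleph0_iff_set_finite.2 (Set.toFinite _)).trans
              (by simpa using hμ0)
        refine hU.up _ h5 _ (fun β h => h.2) ?_
        intro β hβ
        have h6 := hβ _ (Set.mem_insert _ _)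
        have h7 := hβ _ (Set.mem_insert_of_mem _ rfl)
        refine ⟨?_, h6.1⟩
        rcases h7.1 with h8 | h8
        · exact absurd ⟨h8, h6.1⟩ h6.2
        · exact h8
  have hall : ⋂₀ (Set.range fun n => pick (P n) (pc (P n)) ∩ Set.Iio μ.ord) ∈ U := by
    refine hU.inter _ ?_ ⟨_, ⟨0, rfl⟩⟩ ?_
    · rintro _ ⟨n, rfl⟩
      exact key n
    · refine lt_of_le_of_lt (b := ℵ₀) ?_ (by simpa using hμ0)
      exact Cardinal.mk_le_aleph0_iff.2 (Set.countable_range _).to_subtype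
  have hc := hU.uniform _ hall
  rw [← hc] at h1μ
  obtain ⟨x, y, hxy⟩ := Cardinal.one_lt_iff_nontrivial.1 h1μ
  refine ⟨x.1, y.1, fun h => hxy (Subtype.ext h), fun n => ?_⟩
  exact ⟨(x.2 _ ⟨n, rfl⟩).1, (y.2 _ ⟨n, rfl⟩).1⟩

end Pool.Agent.X177.WG
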