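import Pool.Agent.X177.WG.Key
import Pool.Agent.X177.RL.Tools

set_option autoImplicit false

namespace Pool.Agent.X177.WG

open Cardinal Ordinal

universe u v

/-- The ways how an ordinal can fail to be weakly compact. -/
def Fail (e B : Ordinal.{u} → Ordinal.{u} → Set Ordinal.{u}) (v : Set Ordinal.{u})
    (α : Ordinal.{u}) (d : Ordinal.{u} → Ordinal.{u}) : Prop :=
  (∀ γ < α, ∃ i < d 0, γ ≤ d (2 + i)) ∨
  (Set.InjOn (e α) (Set.Iio α) ∧ ∀ ζ < α, e α ζ ⊆ Set.Iio (d 0)) ∨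
  (d 0 ∈ v ∧ B α (d 0) ⊆ Set.Iio (d 1)) ∨
  (d 0 ∉ v ∧ d 1 ∉ v ∧ ∀ x < α, (x ∈ B α (d 1) ↔ x ∉ B α (d 0))) ∨
  ((∀ i < d 1, d (2 + i) ∈ v) ∧ d 0 ∉ v ∧
    ∀ x < α, (∀ i < d 1, x ∈ B α (d (2 + i))) → x ∈ B α (d 0))

/-- Building the sequence of the data. -/
theorem exists_data {α : Ordinal.{u}} {p q : Ordinal.{u}} (hp : p < α) (hq : q < α)
    {z : Ordinal.{u} → Ordinal.{u}} (hz : ∀ i, z i < α) :
    ∃ d : Ordinal.{u} → Ordinal.{u}, (∀ i, d i < α) ∧ d 0 = p ∧ d 1 = q ∧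
      ∀ i, d (2 + i) = z i := by
  classical
  refine ⟨fun j => if j = 0 then p else if j = 1 then q else z (j - 2), ?_, ?_, ?_, ?_⟩
  · intro i
    dsimp only
    split_ifs
    exacts [hp, hq, hz _]
  · simp
  · simp
  · intro i
    have h1 : (1 : Ordinal.{u}) < 2 := by exact_mod_cast (by norm_num : (1 : ℕ) < 2)
    have h2 : (2 : Ordinal.{u}) ≤ 2 + i := le_self_add
    have h3 : (2 + i : Ordinal.{u}) ≠ 0 := (zero_lt_one.trans (h1.trans_le h2)).ne'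
    have h4 : (2 + i : Ordinal.{u}) ≠ 1 := (h1.trans_le h2).ne'
    simp only [if_neg h3, if_neg h4, Ordinal.add_sub_cancel]

theorem exists_fail {κ δ : Cardinal.{u}}
    {e B : Ordinal.{u} → Ordinal.{u} → Set Ordinal.{u}} {α : Ordinal.{u}}
    (he : ∀ μ < α, (∃ e' : Ordinal.{u} → Set Ordinal.{u}, Set.InjOn e' (Set.Iio α) ∧
      ∀ ζ < α, e' ζ ⊆ Set.Iio μ) →
      ∃ μ < α, Set.InjOn (e α) (Set.Iio α) ∧ ∀ ζ < α, e α ζ ⊆ Set.Iio μ)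
    (hB : ∀ a, a.IsInaccessible → δ < a → a < κ → a.ord = α →
      ∃ 𝒜, IsAlg a 𝒜 ∧ 𝒜 = B α '' Set.Iio α ∧ ∀ U, ¬ IsUlt a 𝒜 U)
    (hω : ω < α) (hδ : δ.ord < α) (hα : α < κ.ord) (v : Set Ordinal.{u}) :
    ∃ d : Ordinal.{u} → Ordinal.{u}, (∀ i, d i < α) ∧ Fail e B v α d := by
  classical
  have h0 : (0 : Ordinal.{u}) < α := lt_of_le_of_lt (zero_le) hω
  have h1' : (1 : Ordinal.{u}) < α := Ordinal.one_lt_omega0.trans hω
  by_cases hreg : ∃ a : Cardinal.{u}, a.IsRegular ∧ a.ord = α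
  swap
  · obtain ⟨η, hη, c, hc, hc'⟩ := RL.exists_cofinal hω.le hreg
    obtain ⟨d, hd, hd0, hd1, hd2⟩ := exists_data hη h0 (z := fun i => if i < η then c i else 0)
      (by
        intro i
        split_ifs with h
        exacts [hc i h, h0])
    refine ⟨d, hd, Or.inl ?_⟩
    intro γ hγ
    obtain ⟨i, hi, h⟩ := hc' γ hγ
    refine ⟨i, hd0 ▸ hi, ?_⟩
    rw [hd2, if_pos hi]
    exact h
  obtain ⟨a, hareg, rfl⟩ := hreg
  have ha0 : ℵ₀ < a := by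
    rw [← ord_lt_ord, ord_aleph0]
    exact hω
  by_cases hsl : a.IsStrongPrelimit
  swap
  · have h1 : ∃ x < a, a ≤ 2 ^ x := by
      by_contra hcon
      push Not at hcon
      exact hsl fun x hx => hcon x hx
    obtain ⟨x, hx, hx'⟩ := h1
    have h2 : #(Set.Iio a.ord) ≤ #(Set (Set.Iio x.ord)) := by
      rw [mk_set, mk_Iio_ord, mk_Iio_ord, ← Cardinal.lift_two_power, Cardinal.lift_le]
      exact hx'
    obtain ⟨g⟩ := Cardinal.le_def _ _ |>.1 h2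
    obtain ⟨μ, hμ, h3⟩ : ∃ μ < a.ord, Set.InjOn (e a.ord) (Set.Iio a.ord) ∧
        ∀ ζ < a.ord, e a.ord ζ ⊆ Set.Iio μ := by
      refine he x.ord (ord_lt_ord.2 hx)
        ⟨fun ζ => if h : ζ < a.ord then Subtype.val '' g ⟨ζ, h⟩ else ∅, ?_, ?_⟩
      · intro ζ hζ ζ' hζ' h
        simp only [dif_pos (show ζ < a.ord from hζ), dif_pos (show ζ' < a.ord from hζ')] at h
        have h4 := g.injective (Set.image_injective.2 Subtype.val_injective h)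
        exact congrArg Subtype.val h4
      · intro ζ hζ
        simp only [dif_pos hζ]
        rintro _ ⟨x, _, rfl⟩
        exact x.2
    obtain ⟨d, hd, hd0, hd1, hd2⟩ := exists_data hμ h0 (z := fun i => 0) (fun _ => h0)
    exact ⟨d, hd, Or.inr (Or.inl (hd0.symm ▸ h3))⟩
  have hinacc : a.IsInaccessible := ⟨ha0, hareg.2, hsl⟩
  obtain ⟨𝒜, h𝒜, h𝒜B, hno⟩ := hB a hinacc (ord_lt_ord.1 hδ) (ord_lt_ord.1 hα) rfl
  by_contra hcon
  have r1 : ∀ ζ < a.ord, ζ ∈ v → ∀ β < a.ord, B a.ord ζ ⊆ Set.Iio β → False := by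
    intro ζ hζ hζv β hβ h
    obtain ⟨d, hd, hd0, hd1, hd2⟩ := exists_data hζ hβ (z := fun i => 0) (fun _ => h0)
    refine hcon ⟨d, hd, Or.inr (Or.inr (Or.inl ?_))⟩
    rw [hd0, hd1]
    exact ⟨hζv, h⟩
  have r2 : ∀ ζ < a.ord, ζ ∉ v → ∀ ζ' < a.ord, ζ' ∉ v →
      (∀ x < a.ord, (x ∈ B a.ord ζ' ↔ x ∉ B a.ord ζ)) → False := by
    intro ζ hζ hζv ζ' hζ' hζ'v h
    obtain ⟨d, hd, hd0, hd1, hd2⟩ := exists_data hζ hζ' (z := fun i => 0) (fun _ => h0)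
    refine hcon ⟨d, hd, Or.inr (Or.inr (Or.inr (Or.inl ?_)))⟩
    rw [hd0, hd1]
    exact ⟨hζv, hζ'v, h⟩
  have r4 : ∀ l < a.ord, ∀ z : Ordinal.{u} → Ordinal.{u}, (∀ i < l, z i < a.ord ∧ z i ∈ v) →
      ∀ ζ < a.ord, ζ ∉ v → (∀ x < a.ord, (∀ i < l, x ∈ B a.ord (z i)) → x ∈ B a.ord ζ) →
      False := by
    intro l hl z hz ζ hζ hζv h
    obtain ⟨d, hd, hd0, hd1, hd2⟩ := exists_data hζ hl (z := fun i => if i < l then z i else 0)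
      (by
        intro i
        split_ifs with h
        exacts [(hz i h).1, h0])
    refine hcon ⟨d, hd, Or.inr (Or.inr (Or.inr (Or.inr ?_)))⟩
    rw [hd0, hd1]
    refine ⟨fun i hi => ?_, hζv, fun x hx hx' => h x hx fun i hi => ?_⟩
    · rw [hd2, if_pos hi]
      exact (hz i hi).2
    · have := hx' i hi
      rwa [hd2, if_pos hi] at this
  refine hno (B a.ord '' {ζ | ζ < a.ord ∧ ζ ∈ v}) ⟨?_, ?_, ?_, ?_, ?_, ?_⟩
  · rw [h𝒜B]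
    exact Set.image_mono fun ζ h => h.1
  · have h1 := h𝒜.univ
    rw [h𝒜B] at h1
    obtain ⟨ζ, hζ, h2⟩ := h1
    refine ⟨ζ, ⟨hζ, ?_⟩, h2⟩
    by_contra h3
    refine r4 0 h0 (fun _ => 0) (fun i hi => absurd hi not_lt_zero) ζ hζ h3 ?_
    intro x hx _
    rw [h2]
    exact hx
  · rintro _ ⟨ζ, ⟨hζ, hζv⟩, rfl⟩
    have h1 : B a.ord ζ ⊆ Set.Iio a.ord := h𝒜.sub _ (h𝒜B ▸ ⟨ζ, hζ, rfl⟩)
    refine le_antisymm ?_ ?_
    · rw [← mk_Iio_ord]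
      exact mk_le_mk_of_subset h1
    · by_contra h2
      push Not at h2
      obtain ⟨b, hb, hb'⟩ := RL.exists_bound hareg h2 (fun i hi => h1 hi)
      exact r1 ζ hζ hζv b hb hb'
  · rintro _ ⟨ζ, ⟨hζ, hζv⟩, rfl⟩ B' hB' hsub
    rw [h𝒜B] at hB'
    obtain ⟨ζ', hζ', rfl⟩ := hB'
    refine ⟨ζ', ⟨hζ', ?_⟩, rfl⟩
    by_contra h3
    refine r4 1 h1' (fun _ => ζ) (fun i hi => ⟨hζ, hζv⟩) ζ' hζ' h3 ?_
    intro x hx hx'
    exact hsub (hx' 0 zero_lt_one)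
  · intro A hA
    have hA' := h𝒜.compl A hA
    rw [h𝒜B] at hA hA'
    obtain ⟨ζ, hζ, rfl⟩ := hA
    obtain ⟨ζ', hζ', h1⟩ := hA'
    by_cases h2 : ζ ∈ v
    · exact Or.inl ⟨ζ, ⟨hζ, h2⟩, rfl⟩
    by_cases h3 : ζ' ∈ v
    · exact Or.inr ⟨ζ', ⟨hζ', h3⟩, h1⟩
    exfalso
    refine r2 ζ hζ h2 ζ' hζ' h3 ?_
    intro x hx
    rw [h1]
    exact ⟨fun h => h.2, fun h => ⟨hx, h⟩⟩
  · intro S hS hne hc
    have hS' : S ⊆ 𝒜 := by
      rw [h𝒜B]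
      exact hS.trans (Set.image_mono fun ζ h => h.1)
    have h1 := h𝒜.inter S hS' hne hc
    rw [h𝒜B] at h1
    obtain ⟨ζ, hζ, h2⟩ := h1
    refine ⟨ζ, ⟨hζ, ?_⟩, h2⟩
    by_contra h3
    obtain ⟨l, hl, g, rfl⟩ := enum_lt S hc hne
    have h4 : ∀ i : Set.Iio l, ∃ ζ, (ζ < a.ord ∧ ζ ∈ v) ∧ B a.ord ζ = g i :=
      fun i => hS ⟨i.1, i.2, rfl⟩
    choose z hz hz' using h4
    refine r4 l hl (fun i => if h : i < l then z ⟨i, h⟩ else 0) ?_ ζ hζ h3 ?_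
    · intro i hi
      simp only [dif_pos hi]
      exact hz _
    · intro x hx hx'
      rw [h2]
      rintro _ ⟨i, hi, rfl⟩
      have := hx' i hi
      simp only [dif_pos (show i < l from hi), hz'] at this
      exact this

end Pool.Agent.X177.WG
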