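import Pool.Agent.X177.WG.Defs

set_option autoImplicit false

namespace Pool.Agent.X177.WG

open Cardinal Ordinal

universe u v

theorem isInacc_lift {κ : Cardinal.{u}} (h : κ.IsInaccessible) :
    (Cardinal.lift.{v} κ).IsInaccessible := by
  refine ⟨by simpa using h.1, ?_, ?_⟩
  · rw [← lift_ord, ← lift_cof, Cardinal.lift_le]
    exact h.2
  · intro c hc
    obtain ⟨c', rfl⟩ := Cardinal.mem_range_lift_of_le hc.le
    rw [← Cardinal.lift_two_power, Cardinal.lift_lt]
    exact h.3 (Cardinal.lift_lt.1 hc)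

theorem power_le {κ c : Cardinal.{u}} (h : κ.IsInaccessible) (hc : c < κ) : κ ^ c ≤ κ := by
  induction κ using Cardinal.inductionOn with | _ K
  induction c using Cardinal.inductionOn with | _ C
  by_cases hC : #C = 0
  · rw [hC, Cardinal.power_zero]
    exact (Cardinal.one_lt_aleph0.trans h.1).le
  have h1 : #(C × K) = #K := by
    rw [mk_prod, Cardinal.lift_id, Cardinal.lift_id]
    exact Cardinal.mul_eq_right h.1.le hc.le hC
  have h2 : #{ s : Set (C × K) // #s < Ordinal.cof (#(C × K)).ord } = #(C × K) := by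
    refine mk_subset_mk_lt_cof ?_
    rw [h1]
    exact h.3
  rw [h1] at h2
  conv_rhs => rw [← h2]
  rw [Cardinal.power_def]
  have hcof : (#K).ord.cof = #K := h.isRegular.cof_ord
  refine @mk_le_of_injective _ _ (fun f : C → K =>
    (⟨Set.range fun c : C => (c, f c), ?_⟩ :
      { s : Set (C × K) // #s < Ordinal.cof (#K).ord })) ?_
  · rw [hcof]
    exact mk_range_le.trans_lt hc
  · intro f g hfg
    have h3 : (Set.range fun c : C => (c, f c)) = Set.range fun c : C => (c, g c) :=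
      congrArg Subtype.val hfg
    funext c
    have h4 : (c, f c) ∈ Set.range fun c : C => (c, g c) := by
      rw [← h3]
      exact ⟨c, rfl⟩
    obtain ⟨c', hc'⟩ := h4
    rw [Prod.mk.injEq] at hc'
    rw [← hc'.2, hc'.1]

/-- An abbreviation for the type of the ternary relations between ordinals. -/
abbrev T : Type (u + 1) := Ordinal.{u} → Ordinal.{u} → Set Ordinal.{u}

/-- The shapes of the terms for the closure. -/
abbrev Sh (κ : Cardinal.{u}) (X : Set T.{u}) (F : Set (T.{u} → T.{u} → T.{u})) : Type (u + 1) :=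
  (X ⊕ F) ⊕ Set.Iio κ.ord

/-- The arities. -/
def Ar (κ : Cardinal.{u}) (X : Set T.{u}) (F : Set (T.{u} → T.{u} → T.{u})) :
    Sh κ X F → Type (u + 1)
  | Sum.inl (Sum.inl _) => PEmpty
  | Sum.inl (Sum.inr _) => ULift Bool
  | Sum.inr ζ => Set.Iio ζ.1

theorem exists_hull {κ : Cardinal.{u}} (h : κ.IsInaccessible)
    (F : Set (T.{u} → T.{u} → T.{u})) (hF : #F ≤ Cardinal.lift.{u + 1} κ)
    (X : Set T.{u}) (hX : #X ≤ Cardinal.lift.{u + 1} κ) :
    ∃ H : Set T.{u}, X ⊆ H ∧ #H ≤ Cardinal.lift.{u + 1} κ ∧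
      (∀ f ∈ F, ∀ R ∈ H, ∀ S ∈ H, f R S ∈ H) ∧
      ∀ R : Ordinal.{u} → T.{u}, ∀ ζ < κ.ord, (∀ i < ζ, R i ∈ H) →
        (fun a b => {x | ∀ i < ζ, x ∈ R i a b}) ∈ H := by
  classical
  have hK : #(Set.Iio κ.ord) = Cardinal.lift.{u + 1} κ := by
    rw [Cardinal.mk_Iio_ordinal, card_ord]
  have hκ := isInacc_lift.{u, u + 1} h
  have hw : #(WType (Ar κ X F)) ≤ Cardinal.lift.{u + 1} κ := by
    refine WType.cardinalMk_le_of_le ?_
    refine (Cardinal.sum_le_mk_mul_iSup _).trans ?_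
    have h1 : #(Sh κ X F) ≤ Cardinal.lift.{u + 1} κ := by
      rw [mk_sum, mk_sum, Cardinal.lift_id, Cardinal.lift_id, Cardinal.lift_id, Cardinal.lift_id,
        hK]
      refine Cardinal.add_le_of_le hκ.1.le (Cardinal.add_le_of_le hκ.1.le hX hF) le_rfl
    refine (mul_le_mul' h1 (ciSup_le' fun a => power_le (c := #(Ar κ X F a)) hκ ?_)).trans ?_
    · rcases a with (a | a) | a
      · show #PEmpty < _
        simpa using hκ.pos
      · show #(ULift Bool) < _
        simpa using hκ.nat_lt 2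
      · show #(Set.Iio a.1) < _
        rw [Cardinal.mk_Iio_ordinal, Cardinal.lift_lt]
        exact Cardinal.lt_ord.1 a.2
    · exact (Cardinal.mul_eq_self hκ.1.le).le
  let fγ : (Σ a, Ar κ X F a → T.{u}) → T.{u} := fun z => match z with
    | ⟨Sum.inl (Sum.inl x), _⟩ => x.1
    | ⟨Sum.inl (Sum.inr f), g⟩ => f.1 (g (ULift.up true)) (g (ULift.up false))
    | ⟨Sum.inr ζ, g⟩ => fun a b => {x | ∀ i : Set.Iio ζ.1, x ∈ g i a b}
  let E : WType (Ar κ X F) → T.{u} := WType.elim T.{u} fγ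
  refine ⟨Set.range E, ?_, mk_range_le.trans hw, ?_, ?_⟩
  · intro x hx
    exact ⟨WType.mk (Sum.inl (Sum.inl ⟨x, hx⟩)) PEmpty.elim, rfl⟩
  · rintro f hf _ ⟨t, rfl⟩ _ ⟨t', rfl⟩
    exact ⟨WType.mk (Sum.inl (Sum.inr ⟨f, hf⟩)) (fun b => if b.down then t else t'), rfl⟩
  · intro R ζ hζ hR
    choose g hg using fun i : Set.Iio ζ => hR i.1 i.2
    refine ⟨WType.mk (Sum.inr ⟨ζ, hζ⟩) g, ?_⟩
    show (fun a b => {x | ∀ i : Set.Iio ζ, x ∈ E (g i) a b}) = _
    funext a b
    ext x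
    simp only [Set.mem_ofPred_eq]
    constructor
    · intro h1 i hi
      have := h1 ⟨i, hi⟩
      rwa [hg] at this
    · intro h1 i
      rw [hg]
      exact h1 i.1 i.2

end Pool.Agent.X177.WG
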