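import Pool.Agent.X177.WG.Hull

set_option autoImplicit false

namespace Pool.Agent.X177.WG

open Cardinal Ordinal

universe u v

theorem mk_Iio_ord (κ : Cardinal.{u}) : #(Set.Iio κ.ord) = Cardinal.lift.{u + 1} κ := by
  rw [Cardinal.mk_Iio_ordinal, card_ord]

theorem mk_Iio_lt {κ : Cardinal.{u}} {ζ : Ordinal.{u}} (h : ζ < κ.ord) :
    #(Set.Iio ζ) < Cardinal.lift.{u + 1} κ := by
  rw [Cardinal.mk_Iio_ordinal, Cardinal.lift_lt]
  exact Cardinal.lt_ord.1 h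

/-- Enumerating a set along an initial ordinal. -/
theorem enum {α : Type (u + 1)} (S : Set α) (c : Cardinal.{u}) (hS : #S = Cardinal.lift.{u + 1} c)
    (hne : S.Nonempty) : ∃ e : Ordinal.{u} → α, S = e '' Set.Iio c.ord := by
  classical
  rw [← mk_Iio_ord] at hS
  obtain ⟨E⟩ := Cardinal.eq.1 hS
  obtain ⟨s, hs⟩ := hne
  refine ⟨fun i => if hi : i < c.ord then (E.symm ⟨i, hi⟩).1 else s, ?_⟩
  ext x
  constructor
  · intro hx
    refine ⟨(E ⟨x, hx⟩).1, (E ⟨x, hx⟩).2, ?_⟩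
    simp only [dif_pos (show (E ⟨x, hx⟩).1 < c.ord from (E ⟨x, hx⟩).2), Subtype.coe_eta,
      Equiv.symm_apply_apply]
  · rintro ⟨i, hi, rfl⟩
    simp only [dif_pos (show i < c.ord from hi)]
    exact (E.symm _).2

theorem enum_lt {α : Type (u + 1)} {κ : Cardinal.{u}} (S : Set α)
    (hS : #S < Cardinal.lift.{u + 1} κ) (hne : S.Nonempty) :
    ∃ ζ < κ.ord, ∃ e : Ordinal.{u} → α, S = e '' Set.Iio ζ := by
  obtain ⟨c, hc⟩ := Cardinal.mem_range_lift_of_le hS.le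
  rw [← hc, Cardinal.lift_lt] at hS
  exact ⟨c.ord, ord_lt_ord.2 hS, enum S c hc.symm hne⟩

/-- The algebra of a family of relations. -/
def algOf (κ : Cardinal.{u}) (H : Set T.{u}) : Set (Set Ordinal.{u}) :=
  {A | ∃ R ∈ H, A = R 0 0 ∩ Set.Iio κ.ord}

/-- The basic operations. -/
def baseF (κ : Cardinal.{u}) : Set (T.{u} → T.{u} → T.{u}) :=
  insert (fun R _ a b => (R a b)ᶜ)
    (Set.range fun p : Set.Iio κ.ord × Set.Iio κ.ord => fun R _ _ _ => R p.1 p.2)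

theorem mk_baseF {κ : Cardinal.{u}} (h : κ.IsInaccessible) :
    #(baseF κ) ≤ Cardinal.lift.{u + 1} κ := by
  have hκ := isInacc_lift.{u, u + 1} h
  refine Cardinal.mk_insert_le.trans (Cardinal.add_le_of_le hκ.1.le ?_ ?_)
  · refine mk_range_le.trans ?_
    rw [mk_prod, Cardinal.lift_id, mk_Iio_ord]
    exact (Cardinal.mul_eq_self hκ.1.le).le
  · exact (Cardinal.one_lt_aleph0.trans hκ.1).le

/-- The closure conditions. -/
structure IsHull (κ : Cardinal.{u}) (F : Set (T.{u} → T.{u} → T.{u})) (H : Set T.{u}) : Prop where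
  card : #H ≤ Cardinal.lift.{u + 1} κ
  op : ∀ f ∈ F, ∀ R ∈ H, ∀ S ∈ H, f R S ∈ H
  inter : ∀ R : Ordinal.{u} → T.{u}, ∀ ζ < κ.ord, (∀ i < ζ, R i ∈ H) →
    (fun a b => {x | ∀ i < ζ, x ∈ R i a b}) ∈ H

theorem sec_mem {κ : Cardinal.{u}} {F : Set (T.{u} → T.{u} → T.{u})} (hF : baseF κ ⊆ F)
    {H : Set T.{u}} (hH : IsHull κ F H) {R : T.{u}} (hR : R ∈ H) {a b : Ordinal.{u}}
    (ha : a < κ.ord) (hb : b < κ.ord) : R a b ∩ Set.Iio κ.ord ∈ algOf κ H :=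
  ⟨fun _ _ => R a b, hH.op _ (hF (Set.mem_insert_of_mem _ ⟨(⟨a, ha⟩, ⟨b, hb⟩), rfl⟩)) R hR R hR, rfl⟩

theorem isAlg_algOf {κ : Cardinal.{u}} (hκ : κ.IsInaccessible)
    {F : Set (T.{u} → T.{u} → T.{u})} (hF : baseF κ ⊆ F)
    {H : Set T.{u}} (hH : IsHull κ F H) : IsAlg κ (algOf κ H) := by
  have hκ0 : 0 < κ.ord := by simpa using hκ.pos
  refine ⟨?_, ?_, ?_, ?_⟩
  · rintro A ⟨R, _, rfl⟩
    exact Set.inter_subset_right
  · refine ⟨_, hH.inter (fun _ _ _ => ∅) 0 hκ0 (fun i hi => absurd hi not_lt_zero), ?_⟩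
    ext x
    simp
  · rintro A ⟨R, hR, rfl⟩
    refine ⟨_, hH.op _ (hF (Set.mem_insert _ _)) R hR R hR, ?_⟩
    ext x
    simp only [Set.mem_sdiff, Set.mem_inter_iff, Set.mem_compl_iff]
    tauto
  · intro S hS hne hc
    obtain ⟨ζ, hζ, e, rfl⟩ := enum_lt S hc hne
    have h1 : ∀ i : Set.Iio ζ, ∃ R ∈ H, e i = R 0 0 ∩ Set.Iio κ.ord :=
      fun i => hS ⟨i.1, i.2, rfl⟩
    choose R hR hR' using h1
    classical
    refine ⟨_, hH.inter (fun i => if hi : i < ζ then R ⟨i, hi⟩ else fun _ _ => ∅) ζ hζ ?_, ?_⟩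
    · intro i hi
      simp only [dif_pos hi]
      exact hR _
    · ext x
      simp only [Set.sInter_image, Set.mem_iInter, Set.mem_Iio, Set.mem_inter_iff,
        Set.mem_ofPred_eq]
      constructor
      · intro hx
        refine ⟨fun i hi => ?_, ?_⟩
        · have := hx i hi
          rw [hR' ⟨i, hi⟩] at this
          simp only [dif_pos hi]
          exact this.1
        · obtain ⟨_, ⟨i, hi, rfl⟩⟩ := hne
          have := hx i hi
          rw [hR' ⟨i, hi⟩] at this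
          exact this.2
      · rintro ⟨hx, hx'⟩ i hi
        have := hx i hi
        simp only [dif_pos hi] at this
        rw [hR' ⟨i, hi⟩]
        exact ⟨this, hx'⟩

theorem isAlg_powerset (κ : Cardinal.{u}) : IsAlg κ {A | A ⊆ Set.Iio κ.ord} := by
  refine ⟨fun A h => h, Set.Subset.rfl, fun A _ => Set.sdiff_subset, ?_⟩
  rintro S hS ⟨A, hA⟩ _
  exact (Set.sInter_subset_of_mem hA).trans (hS hA)

theorem isAlg_gen {κ : Cardinal.{u}} {𝒮 : Set (Set Ordinal.{u})}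
    (h : ∀ A ∈ 𝒮, A ⊆ Set.Iio κ.ord) : IsAlg κ (gen κ 𝒮) := by
  refine ⟨fun A hA => hA _ (isAlg_powerset κ) h, fun 𝒜 h𝒜 _ => h𝒜.univ,
    fun A hA 𝒜 h𝒜 h' => h𝒜.compl _ (hA 𝒜 h𝒜 h'),
    fun S hS hne hc 𝒜 h𝒜 h' => h𝒜.inter S (fun A hA => hS hA 𝒜 h𝒜 h') hne hc⟩

theorem subset_gen {κ : Cardinal.{u}} {𝒮 : Set (Set Ordinal.{u})} : 𝒮 ⊆ gen κ 𝒮 :=
  fun _ hA _ _ h => h hA

theorem IsUlt.not_both {κ : Cardinal.{u}} (hκ : κ.IsInaccessible) {𝒜 U : Set (Set Ordinal.{u})}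
    (hU : IsUlt κ 𝒜 U) {A : Set Ordinal.{u}} (h1 : A ∈ U) (h2 : Set.Iio κ.ord \ A ∈ U) : False := by
  have h3 : ⋂₀ {A, Set.Iio κ.ord \ A} ∈ U := by
    refine hU.inter _ ?_ ⟨A, Set.mem_insert _ _⟩ ?_
    · rintro B (rfl | rfl)
      · exact h1
      · exact h2
    · exact (Cardinal.lt_aleph0_iff_set_finite.2 (Set.toFinite _)).trans (by simpa using hκ.1)
  have h4 := hU.uniform _ h3
  have h5 : ⋂₀ {A, Set.Iio κ.ord \ A} = ∅ := by
    ext x
    simp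
  rw [h5] at h4
  have h6 := hκ.ne_zero
  rw [Cardinal.mk_eq_zero] at h4
  exact h6 (by simpa using h4.symm)

/-- Measuring the sections. -/
def amen (κ : Cardinal.{u}) (W : Set (Set Ordinal.{u})) (R : T.{u}) : T.{u} :=
  fun a _ => {c | a < κ.ord ∧ c < κ.ord ∧ R c a ∩ Set.Iio κ.ord ∈ W}

theorem hist_succ {α : Type*} (a : ℕ → α) (n : ℕ) : hist a (n + 1) = hist a n ++ [a (n + 1)] := by
  rw [hist, List.range_succ, List.map_append]
  rfl

theorem key {κ : Cardinal.{u}} (hκ : κ.IsInaccessible) (hW : WinsGStar κ)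
    (F : Set (T.{u} → T.{u} → T.{u})) (hF : #F ≤ Cardinal.lift.{u + 1} κ)
    (X : Set T.{u}) (hX : #X ≤ Cardinal.lift.{u + 1} κ) :
    ∃ (H : Set T.{u}) (𝒢 W : Set (Set Ordinal.{u})), X ⊆ H ∧ IsAlg κ 𝒢 ∧ IsUlt κ 𝒢 W ∧
      (∀ R ∈ H, ∀ a < κ.ord, ∀ b < κ.ord, R a b ∩ Set.Iio κ.ord ∈ 𝒢) ∧
      (∀ f ∈ F, ∀ R ∈ H, ∀ S ∈ H, f R S ∈ H) ∧ ∀ R ∈ H, amen κ W R ∈ H := by
  classical
  have hκ0 : 0 < κ.ord := by simpa using hκ.pos
  have hκ' := isInacc_lift.{u, u + 1} hκ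
  set F' := F ∪ baseF κ with hF'
  have hF'c : #F' ≤ Cardinal.lift.{u + 1} κ :=
    (Cardinal.mk_union_le _ _).trans (Cardinal.add_le_of_le hκ'.1.le hF (mk_baseF hκ))
  have hbase : baseF κ ⊆ F' := Set.subset_union_right
  set X' : Set T.{u} := insert (fun a _ => {a}) X with hX'
  have hX'c : #X' ≤ Cardinal.lift.{u + 1} κ :=
    Cardinal.mk_insert_le.trans (Cardinal.add_le_of_le hκ'.1.le hX
      (Cardinal.one_lt_aleph0.trans hκ'.1).le)
  have hex : ∀ Y : Set T.{u}, ∃ H : Set T.{u}, #Y ≤ Cardinal.lift.{u + 1} κ →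
      Y ⊆ H ∧ IsHull κ F' H := by
    intro Y
    by_cases hY : #Y ≤ Cardinal.lift.{u + 1} κ
    · obtain ⟨H, h1, h2, h3, h4⟩ := exists_hull hκ F' hF'c Y hY
      exact ⟨H, fun _ => ⟨h1, h2, h3, h4⟩⟩
    · exact ⟨∅, fun h => absurd h hY⟩
  choose hull hhull using hex
  obtain ⟨σ, hσ⟩ := hW
  let s : ℕ → Set T.{u} × List (Set (Set Ordinal.{u})) := fun n => Nat.rec
    (hull X', [algOf κ (hull X')])
    (fun _ x => (hull (x.1 ∪ amen κ (σ x.2) '' x.1),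
      x.2 ++ [algOf κ (hull (x.1 ∪ amen κ (σ x.2) '' x.1))])) n
  let 𝒜 : ℕ → Set (Set Ordinal.{u}) := fun n => algOf κ (s n).1
  have hs : ∀ n, (s n).2 = hist 𝒜 n := by
    intro n
    induction n with
    | zero => rfl
    | succ n ih =>
      rw [hist_succ, ← ih]
  have hs1 : ∀ n, (s (n + 1)).1 = hull ((s n).1 ∪ amen κ (σ (hist 𝒜 n)) '' (s n).1) := by
    intro n
    rw [← hs]
  have hH : ∀ n, IsHull κ F' (s n).1 := by
    intro n
    induction n with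
    | zero => exact (hhull _ hX'c).2
    | succ n ih =>
      rw [hs1]
      refine (hhull _ ?_).2
      exact (Cardinal.mk_union_le _ _).trans (Cardinal.add_le_of_le hκ'.1.le ih.card
        (mk_image_le.trans ih.card))
  have hcov : ∀ n, (s n).1 ∪ amen κ (σ (hist 𝒜 n)) '' (s n).1 ⊆ (s (n + 1)).1 := by
    intro n
    rw [hs1]
    refine (hhull _ ?_).1
    exact (Cardinal.mk_union_le _ _).trans (Cardinal.add_le_of_le hκ'.1.le (hH n).card
        (mk_image_le.trans (hH n).card))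
  have hmono : Monotone fun n => (s n).1 :=
    monotone_nat_of_le_succ fun n => Set.subset_union_left.trans (hcov n)
  have h𝒜mono : Monotone 𝒜 := by
    intro m n hmn A hA
    obtain ⟨R, hR, h⟩ := hA
    exact ⟨R, hmono hmn hR, h⟩
  have hsing : ∀ β < κ.ord, {β} ∈ 𝒜 0 := by
    intro β hβ
    have h1 : (fun a _ => {a} : T.{u}) ∈ (s 0).1 := (hhull _ hX'c).1 (Set.mem_insert _ _)
    have h2 := sec_mem hbase (hH 0) h1 hβ hκ0
    convert h2 using 1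
    ext x
    simp only [Set.mem_singleton_iff, Set.mem_inter_iff, Set.mem_Iio]
    exact ⟨fun h => ⟨h, h ▸ hβ⟩, fun h => h.1⟩
  have hcard : ∀ n, #(𝒜 n) = Cardinal.lift.{u + 1} κ := by
    intro n
    apply le_antisymm
    · have : 𝒜 n ⊆ (fun R : T.{u} => R 0 0 ∩ Set.Iio κ.ord) '' (s n).1 := by
        rintro A ⟨R, hR, rfl⟩
        exact ⟨R, hR, rfl⟩
      exact (mk_le_mk_of_subset this).trans (mk_image_le.trans (hH n).card)
    · rw [← mk_Iio_ord]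
      refine @mk_le_of_injective _ _ (fun β => (⟨{β.1}, h𝒜mono (Nat.zero_le n) (hsing β.1 β.2)⟩ : 𝒜 n)) ?_
      intro β β' h
      have := congrArg Subtype.val h
      exact Subtype.ext (Set.singleton_injective this)
  obtain ⟨hU, W, hWU, hUW⟩ := hσ 𝒜
    (fun n => ⟨isAlg_algOf hκ hbase (hH n), hcard n, h𝒜mono (Nat.le_succ n)⟩) hsing
  have hsub : ∀ A ∈ ⋃ n, 𝒜 n, A ⊆ Set.Iio κ.ord := by
    intro A hA
    obtain ⟨n, hn⟩ := Set.mem_iUnion.1 hA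
    exact (isAlg_algOf hκ hbase (hH n)).sub A hn
  refine ⟨⋃ n, (s n).1, gen κ (⋃ n, 𝒜 n), W, ?_, isAlg_gen hsub, hWU, ?_, ?_, ?_⟩
  · exact (Set.subset_insert _ _).trans ((hhull _ hX'c).1.trans
      (Set.subset_iUnion (fun n => (s n).1) 0))
  · intro R hR a ha b hb
    obtain ⟨n, hn⟩ := Set.mem_iUnion.1 hR
    exact subset_gen (Set.mem_iUnion.2 ⟨n, sec_mem hbase (hH n) hn ha hb⟩)
  · intro f hf R hR S hS
    obtain ⟨n, hn⟩ := Set.mem_iUnion.1 hR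
    obtain ⟨m, hm⟩ := Set.mem_iUnion.1 hS
    exact Set.mem_iUnion.2 ⟨max n m, (hH _).op f (Set.mem_union_left _ hf) R
      (hmono (le_max_left n m) hn) S (hmono (le_max_right n m) hm)⟩
  · intro R hR
    obtain ⟨n, hn⟩ := Set.mem_iUnion.1 hR
    refine Set.mem_iUnion.2 ⟨n + 1, hcov n (Set.mem_union_right _ ⟨R, hn, ?_⟩)⟩
    funext a b
    ext c
    simp only [amen, Set.mem_ofPred_eq]
    constructor
    · rintro ⟨h1, h2, h3⟩
      exact ⟨h1, h2, hUW n h3⟩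
    · rintro ⟨h1, h2, h3⟩
      refine ⟨h1, h2, ?_⟩
      rcases (hU n).1.ultra _ (sec_mem hbase (hH n) hn h2 h1) with h4 | h4
      · exact h4
      · exact (hWU.not_both hκ h3 (hUW n h4)).elim

/-- If Player II wins then `κ` is weakly compact. -/
theorem isWeaklyCompact_of_wins {κ : Cardinal.{u}} (hκ : κ.IsInaccessible) (hW : WinsGStar κ) :
    IsWeaklyCompact κ := by
  classical
  refine ⟨hκ, fun 𝒜 h𝒜 hc => ?_⟩
  have hκ' := isInacc_lift.{u, u + 1} hκ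
  have hκ0 : 0 < κ.ord := by simpa using hκ.pos
  obtain ⟨H, h1, h2, h3, h4⟩ := exists_hull hκ (baseF κ) (mk_baseF hκ)
    (insert (fun a _ => {a}) ((fun A : Set Ordinal.{u} => (fun _ _ => A : T.{u})) '' 𝒜)) (by
      refine Cardinal.mk_insert_le.trans (Cardinal.add_le_of_le hκ'.1.le (mk_image_le.trans hc.le)
      (Cardinal.one_lt_aleph0.trans hκ'.1).le))
  have hH : IsHull κ (baseF κ) H := ⟨h2, h3, h4⟩
  have hsub : 𝒜 ⊆ algOf κ H := by
    intro A hA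
    refine ⟨_, h1 (Set.mem_insert_of_mem _ ⟨A, hA, rfl⟩), ?_⟩
    exact (Set.inter_eq_left.2 (h𝒜.sub A hA)).symm
  have hsing : ∀ β < κ.ord, {β} ∈ algOf κ H := by
    intro β hβ
    have h2 := sec_mem Set.Subset.rfl hH (h1 (Set.mem_insert _ _)) hβ hκ0
    convert h2 using 1
    ext x
    simp only [Set.mem_singleton_iff, Set.mem_inter_iff, Set.mem_Iio]
    exact ⟨fun h => ⟨h, h ▸ hβ⟩, fun h => h.1⟩
  have hcard : #(algOf κ H) = Cardinal.lift.{u + 1} κ := by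
    apply le_antisymm
    · have : algOf κ H ⊆ (fun R : T.{u} => R 0 0 ∩ Set.Iio κ.ord) '' H := by
        rintro A ⟨R, hR, rfl⟩
        exact ⟨R, hR, rfl⟩
      exact (mk_le_mk_of_subset this).trans (mk_image_le.trans h2)
    · rw [← hc]
      exact mk_le_mk_of_subset hsub
  obtain ⟨σ, hσ⟩ := hW
  obtain ⟨hU, -⟩ := hσ (fun _ => algOf κ H)
    (fun n => ⟨isAlg_algOf hκ Set.Subset.rfl hH, hcard, Set.Subset.rfl⟩) hsing
  set U := σ (hist (fun _ => algOf κ H) 0)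
  have hU0 := (hU 0).1
  refine ⟨U ∩ 𝒜, Set.inter_subset_right, ⟨hU0.univ, h𝒜.univ⟩, fun A hA => hU0.uniform A hA.1,
    fun A hA B hB hAB => ⟨hU0.up A hA.1 B (hsub hB) hAB, hB⟩, fun A hA => ?_, ?_⟩
  · rcases hU0.ultra A (hsub hA) with h | h
    · exact Or.inl ⟨h, hA⟩
    · exact Or.inr ⟨h, h𝒜.compl A hA⟩
  · intro S hS hne hcS
    exact ⟨hU0.inter S (fun A hA => (hS hA).1) hne hcS, h𝒜.inter S (fun A hA => (hS hA).2) hne hcS⟩

end Pool.Agent.X177.WG
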