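import Pool.Agent.X177.WG.Fail

set_option autoImplicit false

namespace Pool.Agent.X177.WG

open Cardinal Ordinal

universe u v

/-- Almost everywhere. -/
def Ae (W : Set (Set Ordinal.{u})) (P : Ordinal.{u} → Prop) : Prop := ∃ A ∈ W, ∀ x ∈ A, P x

theorem Ae.mono {W : Set (Set Ordinal.{u})} {P Q : Ordinal.{u} → Prop} (h : Ae W P)
    (hPQ : ∀ x, P x → Q x) : Ae W Q := by
  obtain ⟨A, hA, h⟩ := h
  exact ⟨A, hA, fun x hx => hPQ x (h x hx)⟩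

section

variable {κ : Cardinal.{u}} {𝒢 W : Set (Set Ordinal.{u})}

theorem ae_mem (hG : IsAlg κ 𝒢) (hU : IsUlt κ 𝒢 W) {P : Ordinal.{u} → Prop} (h : Ae W P) :
    Ae W fun x => x < κ.ord ∧ P x := by
  obtain ⟨A, hA, h⟩ := h
  exact ⟨A, hA, fun x hx => ⟨hG.sub A (hU.sub hA) hx, h x hx⟩⟩

theorem ae_lt (hU : IsUlt κ 𝒢 W) : Ae W fun x => x < κ.ord :=
  ⟨_, hU.univ, fun _ h => h⟩

theorem ae_all (hU : IsUlt κ 𝒢 W) {ι : Type (u + 1)}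
    (hι : #ι < Cardinal.lift.{u + 1} κ) {P : ι → Ordinal.{u} → Prop} (h : ∀ i, Ae W (P i)) :
    Ae W fun x => ∀ i, P i x := by
  rcases isEmpty_or_nonempty ι with hι' | hι'
  · exact ⟨_, hU.univ, fun x _ i => hι'.elim i⟩
  choose A hA hAP using h
  refine ⟨⋂₀ Set.range A, hU.inter _ ?_ (Set.range_nonempty _) (mk_range_le.trans_lt hι), ?_⟩
  · rintro _ ⟨i, rfl⟩
    exact hA i
  · intro x hx i
    exact hAP i x (hx _ ⟨i, rfl⟩)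

theorem Ae.and (hκ : κ.IsInaccessible) (hU : IsUlt κ 𝒢 W) {P Q : Ordinal.{u} → Prop}
    (h : Ae W P) (h' : Ae W Q) : Ae W fun x => P x ∧ Q x := by
  have h1 : Ae W fun x => ∀ i : ULift.{u + 1} Bool, if i.down then P x else Q x := by
    refine ae_all hU ?_ ?_
    · have := (isInacc_lift.{u, u + 1} hκ).nat_lt 2
      simpa using this
    · rintro ⟨i⟩
      cases i
      · simpa using h'
      · simpa using h
  refine h1.mono fun x hx => ⟨?_, ?_⟩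
  · simpa using hx ⟨true⟩
  · simpa using hx ⟨false⟩

theorem Ae.exists (hU : IsUlt κ 𝒢 W) {P : Ordinal.{u} → Prop}
    (h : Ae W P) (b : Ordinal.{u}) (hb : b < κ.ord) : ∃ x, b ≤ x ∧ P x := by
  obtain ⟨A, hA, h⟩ := h
  by_contra hcon
  push Not at hcon
  have h1 : A ⊆ Set.Iio b := by
    intro x hx
    by_contra h2
    exact hcon x (not_lt.1 h2) (h x hx)
  have h2 := mk_le_mk_of_subset h1
  rw [hU.uniform A hA] at h2
  exact absurd (mk_Iio_lt hb) (not_lt.2 h2)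

theorem ae_not (hU : IsUlt κ 𝒢 W) {P : Ordinal.{u} → Prop}
    (hm : {x | x < κ.ord ∧ P x} ∈ 𝒢) (h : ¬ Ae W P) : Ae W fun x => ¬ P x := by
  rcases hU.ultra _ hm with h1 | h1
  · exact absurd ⟨_, h1, fun x hx => hx.2⟩ h
  · exact ⟨_, h1, fun x hx hP => hx.2 ⟨hx.1, hP⟩⟩

theorem mem_iff_ae (hG : IsAlg κ 𝒢) (hU : IsUlt κ 𝒢 W) {P : Ordinal.{u} → Prop}
    (hm : {x | x < κ.ord ∧ P x} ∈ 𝒢) : {x | x < κ.ord ∧ P x} ∈ W ↔ Ae W P := by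
  constructor
  · intro h
    exact ⟨_, h, fun x hx => hx.2⟩
  · rintro ⟨A, hA, h⟩
    exact hU.up A hA _ hm fun x hx => ⟨hG.sub A (hU.sub hA) hx, h x hx⟩

end

theorem exists_small {κ : Cardinal.{u}} (hκ : κ.IsInaccessible) (hW : WinsGStar κ)
    {δ : Cardinal.{u}} (hδ : δ < κ) : ∃ a, δ < a ∧ a < κ ∧ IsWeaklyCompact a := by
  classical
  by_contra hbad
  push Not at hbad
  have hκ0 : 0 < κ.ord := by simpa using hκ.pos
  have hκ' := isInacc_lift.{u, u + 1} hκ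
  have hlim : Order.IsSuccLimit κ.ord := isSuccLimit_ord hκ.1.le
  -- the parameters
  have he : ∀ α : Ordinal.{u}, ∃ e : Ordinal.{u} → Set Ordinal.{u},
      ∀ μ < α, (∃ e' : Ordinal.{u} → Set Ordinal.{u}, Set.InjOn e' (Set.Iio α) ∧
      ∀ ζ < α, e' ζ ⊆ Set.Iio μ) →
      ∃ μ < α, Set.InjOn e (Set.Iio α) ∧ ∀ ζ < α, e ζ ⊆ Set.Iio μ := by
    intro α
    by_cases h : ∃ μ < α, ∃ e' : Ordinal.{u} → Set Ordinal.{u}, Set.InjOn e' (Set.Iio α) ∧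
      ∀ ζ < α, e' ζ ⊆ Set.Iio μ
    · obtain ⟨μ, hμ, e, h1, h2⟩ := h
      exact ⟨e, fun _ _ _ => ⟨μ, hμ, h1, h2⟩⟩
    · exact ⟨fun _ => ∅, fun μ hμ h' => absurd ⟨μ, hμ, h'⟩ h⟩
  choose e he using he
  have hB : ∀ α : Ordinal.{u}, ∃ B : Ordinal.{u} → Set Ordinal.{u},
      ∀ a : Cardinal.{u}, a.IsInaccessible → δ < a → a < κ → a.ord = α →
      ∃ 𝒜, IsAlg a 𝒜 ∧ 𝒜 = B '' Set.Iio α ∧ ∀ U, ¬ IsUlt a 𝒜 U := by
    intro α
    by_cases h : ∃ a : Cardinal.{u}, a.IsInaccessible ∧ δ < a ∧ a < κ ∧ a.ord = α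
    · obtain ⟨a, h1, h2, h3, rfl⟩ := h
      have h4 := hbad a h2 h3
      rw [IsWeaklyCompact] at h4
      push Not at h4
      obtain ⟨𝒜, h5, h6, h7⟩ := h4 h1
      obtain ⟨B, hB⟩ := enum 𝒜 a h6 ⟨_, h5.univ⟩
      refine ⟨B, fun b _ _ _ hb => ?_⟩
      obtain rfl := ord_injective hb
      exact ⟨𝒜, h5, hB, h7⟩
    · exact ⟨fun _ => ∅, fun a h1 h2 h3 h4 => absurd ⟨a, h1, h2, h3, h4⟩ h⟩
  choose B hB using hB
  have hD : ∀ (v : Set Ordinal.{u}) (α : Ordinal.{u}), ∃ d : Ordinal.{u} → Ordinal.{u},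
      (∀ i, d i < κ.ord) ∧ (ω < α → δ.ord < α → α < κ.ord → (∀ i, d i < α) ∧
        Fail e B v α d) := by
    intro v α
    by_cases h : ω < α ∧ δ.ord < α ∧ α < κ.ord
    · obtain ⟨d, hd, hd'⟩ := exists_fail (he α) (hB α) h.1 h.2.1 h.2.2 v
      exact ⟨d, fun i => (hd i).trans h.2.2, fun _ _ _ => ⟨hd, hd'⟩⟩
    · exact ⟨fun _ => 0, fun _ => hκ0, fun h1 h2 h3 => absurd ⟨h1, h2, h3⟩ h⟩
  choose D hDκ hD using hD
  let op1 : Ordinal.{u} → T.{u} → T.{u} → T.{u} := fun b R S x y =>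
    {ξ | ∃ c < κ.ord, ξ ∈ R c b ∧ c ∈ S x y}
  let op2 : T.{u} → T.{u} → T.{u} := fun R _ x y => {α | D (R 0 0) α y = x}
  let Sid : T.{u} := fun a _ => {a}
  let SB : T.{u} := fun η ζ => {α | η ∈ B α ζ}
  let Se : T.{u} := fun i ζ => {α | i ∈ e α ζ}
  obtain ⟨H, 𝒢, W, hXH, hG, hU, hsec, hop, hamen⟩ := key hκ hW
    (insert op2 (Set.range fun b : Set.Iio κ.ord => op1 b)) (by
      refine Cardinal.mk_insert_le.trans (Cardinal.add_le_of_le hκ'.1.le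
        (mk_range_le.trans (mk_Iio_ord κ).le) (Cardinal.one_lt_aleph0.trans hκ'.1).le))
    {Sid, SB, Se} (by
      refine (Cardinal.mk_le_aleph0_iff.2 (Set.to_countable _).to_subtype).trans hκ'.1.le)
  have hop1 : ∀ b < κ.ord, ∀ R ∈ H, ∀ S ∈ H, op1 b R S ∈ H := fun b hb =>
    hop _ (Set.mem_insert_of_mem _ ⟨⟨b, hb⟩, rfl⟩)
  have hop2 : ∀ R ∈ H, op2 R R ∈ H := fun R hR => hop _ (Set.mem_insert _ _) R hR R hR
  have hSid : Sid ∈ H := hXH (by simp)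
  have hSB : SB ∈ H := hXH (by simp)
  have hSe : Se ∈ H := hXH (by simp)
  -- the functions
  let Fun : Set (Ordinal.{u} → Ordinal.{u}) := {f | (∀ ξ < κ.ord, f ξ < κ.ord) ∧
    ∃ R ∈ H, ∃ b < κ.ord, ∀ ξ < κ.ord, ∀ a < κ.ord, (ξ ∈ R a b ↔ f ξ = a)}
  have hFm : ∀ f ∈ Fun, ∀ a < κ.ord, {ξ | ξ < κ.ord ∧ f ξ = a} ∈ 𝒢 := by
    rintro f ⟨_, R, hR, b, hb, hf⟩ a ha
    convert hsec R hR a ha b hb using 1
    ext ξ
    simp only [Set.mem_ofPred_eq, Set.mem_inter_iff, Set.mem_Iio]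
    constructor
    · rintro ⟨h1, h2⟩
      exact ⟨(hf ξ h1 a ha).2 h2, h1⟩
    · rintro ⟨h1, h2⟩
      exact ⟨h2, (hf ξ h2 a ha).1 h1⟩
  have hwf : WellFounded fun f g : Ordinal.{u} → Ordinal.{u} => Ae W fun ξ => f ξ < g ξ := by
    rw [wellFounded_iff_isEmpty_descending_chain]
    constructor
    rintro ⟨f, hf⟩
    have h1 : Ae W fun ξ => ∀ n : ULift.{u + 1} ℕ, f (n.down + 1) ξ < f n.down ξ := by
      refine ae_all hU ?_ fun n => hf n.down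
      simpa using hκ.1
    obtain ⟨ξ, -, h2⟩ := h1.exists hU 0 hκ0
    have h3 := (wellFounded_iff_isEmpty_descending_chain (r := fun a b : Ordinal.{u} => a < b)).1
      wellFounded_lt
    exact h3.elim ⟨fun n => f n ξ, fun n => h2 ⟨n⟩⟩
  let NC : Set (Ordinal.{u} → Ordinal.{u}) :=
    {f | f ∈ Fun ∧ ∀ β < κ.ord, ¬ Ae W fun ξ => f ξ = β}
  have hid : id ∈ NC := by
    refine ⟨⟨fun ξ h => h, Sid, hSid, 0, hκ0, fun ξ _ a _ => ?_⟩, ?_⟩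
    · simp [Sid]
    · intro β hβ h
      obtain ⟨ξ, h1, h2⟩ := h.exists hU (Order.succ β) (hlim.succ_lt hβ)
      simp only [id] at h2
      subst h2
      exact absurd (Order.lt_succ ξ) (not_lt.2 h1)
  obtain ⟨h, ⟨hhF, hhN⟩, hhmin⟩ := hwf.has_min NC ⟨id, hid⟩
  have hconst : ∀ f ∈ Fun, (Ae W fun ξ => f ξ < h ξ) → ∃ β < κ.ord, Ae W fun ξ => f ξ = β := by
    intro f hf h1
    by_contra hcon
    push Not at hcon
    exact hhmin f ⟨hf, hcon⟩ h1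
  have hL : ∀ β < κ.ord, Ae W fun ξ => β < h ξ := by
    intro β hβ
    have h1 : Ae W fun ξ => ∀ γ : Set.Iio (Order.succ β), ¬ h ξ = γ.1 := by
      refine ae_all hU (mk_Iio_lt (hlim.succ_lt hβ)) ?_
      rintro ⟨γ, hγ⟩
      have hγ' : γ < κ.ord := lt_trans hγ (hlim.succ_lt hβ)
      exact ae_not hU (hFm h hhF γ hγ') (hhN γ hγ')
    refine h1.mono fun ξ h2 => ?_
    by_contra h3
    exact h2 ⟨h ξ, Order.lt_succ_of_le (not_lt.1 h3)⟩ rfl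
  obtain ⟨hhκ, Rh, hRh, bh, hbh, hhR⟩ := hhF
  have hhF : h ∈ Fun := ⟨hhκ, Rh, hRh, bh, hbh, hhR⟩
  have hopm : ∀ S : T.{u}, ∀ x y, ∀ ξ < κ.ord, (ξ ∈ op1 bh Rh S x y ↔ h ξ ∈ S x y) := by
    intro S x y ξ hξ
    constructor
    · rintro ⟨c, hc, h1, h2⟩
      rwa [(hhR ξ hξ c hc).1 h1]
    · intro h1
      exact ⟨h ξ, hhκ ξ hξ, (hhR ξ hξ _ (hhκ ξ hξ)).2 rfl, h1⟩
  have hSm : ∀ S ∈ H, ∀ x < κ.ord, ∀ y < κ.ord, {ξ | ξ < κ.ord ∧ h ξ ∈ S x y} ∈ 𝒢 := by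
    intro S hS x hx y hy
    convert hsec _ (hop1 bh hbh Rh hRh S hS) x hx y hy using 1
    ext ξ
    simp only [Set.mem_ofPred_eq, Set.mem_inter_iff, Set.mem_Iio]
    constructor
    · rintro ⟨h1, h2⟩
      exact ⟨(hopm S x y ξ h1).2 h2, h1⟩
    · rintro ⟨h1, h2⟩
      exact ⟨h2, (hopm S x y ξ h2).1 h1⟩
  -- the measure on the names
  set Q := op1 bh Rh SB with hQ
  have hQH : Q ∈ H := hop1 bh hbh Rh hRh SB hSB
  set R1 := amen κ W Q with hR1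
  have hR1H : R1 ∈ H := hamen Q hQH
  set R2 := amen κ W R1 with hR2
  have hR2H : R2 ∈ H := hamen R1 hR1H
  set v := R2 0 0 with hv
  have hmemR1 : ∀ ζ < κ.ord, ∀ η < κ.ord, ∀ y, (η ∈ R1 ζ y ↔ Ae W fun ξ => η ∈ B (h ξ) ζ) := by
    intro ζ hζ η hη y
    have h1 : Q η ζ ∩ Set.Iio κ.ord = {ξ | ξ < κ.ord ∧ η ∈ B (h ξ) ζ} := by
      ext ξ
      simp only [Set.mem_ofPred_eq, Set.mem_inter_iff, Set.mem_Iio]
      constructor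
      · rintro ⟨h1, h2⟩
        exact ⟨h2, (hopm SB η ζ ξ h2).1 h1⟩
      · rintro ⟨h1, h2⟩
        exact ⟨(hopm SB η ζ ξ h1).2 h2, h1⟩
    rw [hR1, amen, Set.mem_ofPred_eq, h1, mem_iff_ae (P := fun ξ => η ∈ B (h ξ) ζ) hG hU
      (hSm SB hSB η hη ζ hζ)]
    exact ⟨fun h => h.2.2, fun h => ⟨hζ, hη, h⟩⟩
  have hR1m : ∀ ζ < κ.ord, R1 ζ 0 ∩ Set.Iio κ.ord =
      {η | η < κ.ord ∧ Ae W fun ξ => η ∈ B (h ξ) ζ} := by
    intro ζ hζ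
    ext η
    simp only [Set.mem_ofPred_eq, Set.mem_inter_iff, Set.mem_Iio]
    constructor
    · rintro ⟨h1, h2⟩
      exact ⟨h2, (hmemR1 ζ hζ η h2 0).1 h1⟩
    · rintro ⟨h1, h2⟩
      exact ⟨(hmemR1 ζ hζ η h1 0).2 h2, h1⟩
  have hvm' : ∀ ζ < κ.ord, {η | η < κ.ord ∧ Ae W fun ξ => η ∈ B (h ξ) ζ} ∈ 𝒢 := by
    intro ζ hζ
    rw [← hR1m ζ hζ]
    exact hsec R1 hR1H ζ hζ 0 hκ0
  have hvm : ∀ ζ < κ.ord, (ζ ∈ v ↔ Ae W fun η => Ae W fun ξ => η ∈ B (h ξ) ζ) := by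
    intro ζ hζ
    rw [hv, hR2, amen, Set.mem_ofPred_eq, hR1m ζ hζ, mem_iff_ae hG hU (hvm' ζ hζ)]
    exact ⟨fun h => h.2.2, fun h => ⟨hκ0, hζ, h⟩⟩
  -- the constants
  have hgood : Ae W fun ξ => (∀ i, D v (h ξ) i < h ξ) ∧ Fail e B v (h ξ) (D v (h ξ)) := by
    have h1 := ((hL ω (by simpa using hκ.1)).and hκ hU (hL δ.ord (ord_lt_ord.2 hδ))).and hκ hU
      (ae_lt hU)
    exact h1.mono fun ξ h2 => hD v (h ξ) h2.1.1 h2.1.2 (hhκ ξ h2.2)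
  have hE : ∀ i : Ordinal.{u}, ∃ β, i < κ.ord → β < κ.ord ∧ Ae W fun ξ => D v (h ξ) i = β := by
    intro i
    by_cases hi : i < κ.ord
    · obtain ⟨β, h1, h2⟩ := hconst (fun ξ => D v (h ξ) i) ⟨fun ξ _ => hDκ v _ i,
        op1 bh Rh (op2 R2 R2), hop1 bh hbh Rh hRh _ (hop2 R2 hR2H), i, hi, fun ξ hξ a _ =>
          hopm _ a i ξ hξ⟩ (hgood.mono fun ξ h => h.1 i)
      exact ⟨β, fun _ => ⟨h1, h2⟩⟩
    · exact ⟨0, fun h => absurd h hi⟩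
  choose E hE using hE
  have hEall : ∀ τ < κ.ord, Ae W fun ξ => ∀ i < τ, D v (h ξ) i = E i := by
    intro τ hτ
    have h1 : Ae W fun ξ => ∀ i : Set.Iio τ, D v (h ξ) i = E i :=
      ae_all hU (mk_Iio_lt hτ) fun i => (hE i.1 (lt_trans i.2 hτ)).2
    exact h1.mono fun ξ h i hi => h ⟨i, hi⟩
  have h1κ : 1 < κ.ord := Ordinal.one_lt_omega0.trans (by simpa using hκ.1)
  have hE0 : E 0 < κ.ord := (hE 0 hκ0).1
  have hE1 : E 1 < κ.ord := (hE 1 h1κ).1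
  have h2add : ∀ i < κ.ord, 2 + i < κ.ord := by
    intro i hi
    refine Ordinal.isPrincipal_add_ord hκ.1.le ?_ hi
    exact (Ordinal.natCast_lt_omega0 2).trans (by simpa using hκ.1)
  have hnot : ∀ ζ < κ.ord, ∀ η < κ.ord, η ∉ R1 ζ 0 → Ae W fun ξ => η ∉ B (h ξ) ζ := by
    intro ζ hζ η hη h1
    rw [hmemR1 ζ hζ η hη] at h1
    exact ae_not hU (hSm SB hSB η hη ζ hζ) h1
  have hvnot : ∀ ζ < κ.ord, ζ ∉ v → Ae W fun η => Ae W fun ξ => η ∉ B (h ξ) ζ := by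
    intro ζ hζ h1
    rw [hvm ζ hζ] at h1
    refine ((ae_not hU (hvm' ζ hζ) h1).and hκ hU (ae_lt hU)).mono fun η h2 => ?_
    exact ae_not hU (hSm SB hSB η h2.2 ζ hζ) h2.1
  -- the five conditions
  have C0 : Ae W fun ξ => ∃ γ < h ξ, ∀ i < E 0, E (2 + i) < γ := by
    have h1 : #(Set.range fun i : Set.Iio (E 0) => E (2 + i.1)) < Cardinal.lift.{u + 1} κ :=
      mk_range_le.trans_lt (mk_Iio_lt hE0)
    obtain ⟨b, hb, h2⟩ := RL.exists_bound hκ.isRegular h1 (by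
      rintro _ ⟨i, rfl⟩
      exact (hE _ (h2add _ (lt_trans i.2 hE0))).1)
    exact (hL b hb).mono fun ξ h3 => ⟨b, h3, fun i hi => h2 _ ⟨⟨i, hi⟩, rfl⟩⟩
  have C1 : Ae W fun ξ => ∃ ζ < h ξ, ∃ ζ' < h ξ, ζ ≠ ζ' ∧
      ∀ i < E 0, (i ∈ e (h ξ) ζ ↔ i ∈ e (h ξ) ζ') := by
    have h1 : ¬ Function.Injective fun ζ : Set.Iio κ.ord =>
        ({i | Ae W fun ξ => i.1 ∈ e (h ξ) ζ.1} : Set (Set.Iio (E 0))) := by
      intro h2
      have h3 := Cardinal.mk_le_of_injective h2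
      rw [mk_set, mk_Iio_ord] at h3
      exact absurd (hκ'.3 (mk_Iio_lt hE0)) (not_lt.2 h3)
    rw [Function.Injective] at h1
    push Not at h1
    obtain ⟨⟨ζ, hζ⟩, ⟨ζ', hζ'⟩, h2, h3⟩ := h1
    have h4 : Ae W fun ξ => ∀ i : Set.Iio (E 0), (i.1 ∈ e (h ξ) ζ ↔ i.1 ∈ e (h ξ) ζ') := by
      refine ae_all hU (mk_Iio_lt hE0) fun i => ?_
      have h5 := Set.ext_iff.1 h2 i
      simp only [Set.mem_ofPred_eq] at h5
      have hi : i.1 < κ.ord := lt_trans i.2 hE0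
      by_cases h6 : Ae W fun ξ => i.1 ∈ e (h ξ) ζ
      · exact (h6.and hκ hU (h5.1 h6)).mono fun ξ h => ⟨fun _ => h.2, fun _ => h.1⟩
      · have h7 := ae_not hU (hSm Se hSe i.1 hi ζ hζ) h6
        have h8 := ae_not hU (hSm Se hSe i.1 hi ζ' hζ') (fun h => h6 (h5.2 h))
        exact (h7.and hκ hU h8).mono fun ξ h => ⟨fun h' => absurd h' h.1, fun h' => absurd h' h.2⟩
    refine ((h4.and hκ hU (hL ζ hζ)).and hκ hU (hL ζ' hζ')).mono fun ξ h5 => ?_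
    exact ⟨ζ, h5.1.2, ζ', h5.2, fun h => h3 (Subtype.ext h), fun i hi => h5.1.1 ⟨i, hi⟩⟩
  have C2 : Ae W fun ξ => E 0 ∈ v → ¬ B (h ξ) (E 0) ⊆ Set.Iio (E 1) := by
    by_cases h1 : E 0 ∈ v
    · obtain ⟨η, h2, h3⟩ := ((hvm _ hE0).1 h1).exists hU (E 1) hE1
      exact h3.mono fun ξ h4 _ h5 => absurd (h5 h4) (not_lt.2 h2)
    · exact (ae_lt hU).mono fun ξ _ h => absurd h h1
  have C3 : Ae W fun ξ => E 0 ∉ v → E 1 ∉ v → ∃ x < h ξ, x ∉ B (h ξ) (E 0) ∧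
      x ∉ B (h ξ) (E 1) := by
    by_cases h1 : E 0 ∈ v
    · exact (ae_lt hU).mono fun ξ _ h => absurd h1 h
    by_cases h1' : E 1 ∈ v
    · exact (ae_lt hU).mono fun ξ _ _ h => absurd h1' h
    obtain ⟨η, -, ⟨h2, h3⟩, h4⟩ := (((hvnot _ hE0 h1).and hκ hU (hvnot _ hE1 h1')).and hκ hU
      (ae_lt hU)).exists hU 0 hκ0
    exact ((h2.and hκ hU h3).and hκ hU (hL η h4)).mono fun ξ h5 _ _ => ⟨η, h5.2, h5.1.1, h5.1.2⟩
  have C4 : Ae W fun ξ => (∀ i < E 1, E (2 + i) ∈ v) → E 0 ∉ v →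
      ∃ x < h ξ, (∀ i < E 1, x ∈ B (h ξ) (E (2 + i))) ∧ x ∉ B (h ξ) (E 0) := by
    by_cases h1 : E 0 ∈ v
    · exact (ae_lt hU).mono fun ξ _ _ h => absurd h1 h
    by_cases h1' : ∀ i < E 1, E (2 + i) ∈ v
    swap
    · exact (ae_lt hU).mono fun ξ _ h => absurd h h1'
    have h2 : Ae W fun η => ∀ i : Set.Iio (E 1), Ae W fun ξ => η ∈ B (h ξ) (E (2 + i.1)) := by
      refine ae_all hU (mk_Iio_lt hE1) fun i => ?_
      exact (hvm _ (hE _ (h2add _ (lt_trans i.2 hE1))).1).1 (h1' i.1 i.2)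
    obtain ⟨η, -, ⟨h3, h4⟩, h5⟩ := ((h2.and hκ hU (hvnot _ hE0 h1)).and hκ hU
      (ae_lt hU)).exists hU 0 hκ0
    have h6 : Ae W fun ξ => ∀ i : Set.Iio (E 1), η ∈ B (h ξ) (E (2 + i.1)) :=
      ae_all hU (mk_Iio_lt hE1) h3
    exact ((h6.and hκ hU h4).and hκ hU (hL η h5)).mono fun ξ h7 _ _ =>
      ⟨η, h7.2, fun i hi => h7.1.1 ⟨i, hi⟩, h7.1.2⟩
  -- the contradiction
  set τ := 2 + Order.succ (max (E 0) (E 1)) with hτ
  have hτκ : τ < κ.ord := h2add _ (hlim.succ_lt (max_lt hE0 hE1))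
  have hτ0 : (2 : Ordinal.{u}) ≤ τ := le_self_add
  have hτi : ∀ i ≤ max (E 0) (E 1), 2 + i < τ := by
    intro i hi
    exact (add_lt_add_iff_left 2).2 (Order.lt_succ_of_le hi)
  obtain ⟨ξ, -, ⟨⟨⟨⟨⟨⟨c0, c1⟩, c2⟩, c3⟩, c4⟩, hd⟩, hfail⟩⟩ :=
    ((((((C0.and hκ hU C1).and hκ hU C2).and hκ hU C3).and hκ hU C4).and hκ hU
      (hEall τ hτκ)).and hκ hU hgood).exists hU 0 hκ0
  have h02 : (0 : Ordinal.{u}) < 2 := by exact_mod_cast (by norm_num : (0 : ℕ) < 2)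
  have h12 : (1 : Ordinal.{u}) < 2 := by exact_mod_cast (by norm_num : (1 : ℕ) < 2)
  have d0 := hd 0 (h02.trans_le hτ0)
  have d1 := hd 1 (h12.trans_le hτ0)
  rcases hfail.2 with h1 | h1 | h1 | h1 | h1
  · obtain ⟨γ, h2, h3⟩ := c0
    obtain ⟨i, hi, h4⟩ := h1 γ h2
    rw [d0] at hi
    rw [hd _ (hτi i (hi.le.trans (le_max_left _ _)))] at h4
    exact absurd (h3 i hi) (not_lt.2 h4)
  · obtain ⟨ζ, h2, ζ', h3, h4, h5⟩ := c1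
    obtain ⟨h6, h7⟩ := h1
    refine h4 (h6 h2 h3 ?_)
    ext i
    by_cases hi : i < E 0
    · exact h5 i hi
    · rw [d0] at h7
      exact ⟨fun h => absurd (h7 ζ h2 h) hi, fun h => absurd (h7 ζ' h3 h) hi⟩
  · rw [d0, d1] at h1
    exact c2 h1.1 h1.2
  · rw [d0, d1] at h1
    obtain ⟨x, h2, h3, h4⟩ := c3 h1.1 h1.2.1
    exact h4 ((h1.2.2 x h2).2 h3)
  · rw [d0, d1] at h1
    have h2 : ∀ i < E 1, D v (h ξ) (2 + i) = E (2 + i) := fun i hi =>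
      hd _ (hτi i (hi.le.trans (le_max_right _ _)))
    obtain ⟨x, h3, h4, h5⟩ := c4 (fun i hi => h2 i hi ▸ h1.1 i hi) h1.2.1
    exact h5 (h1.2.2 x h3 fun i hi => (h2 i hi).symm ▸ h4 i hi)

end Pool.Agent.X177.WG
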